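import Mathlib

/-! Area inequality for holomorphic maps with multiplicity. -/

open scoped ENNReal NNReal
open MeasureTheory

namespace Pool.Agent.Helper36.Abund

/-- The determinant of the real linear map underlying a complex linear map. -/
theorem det_restrictScalars_eq {n : ℕ} (L : (Fin n → ℂ) →L[ℂ] (Fin n → ℂ)) :
    (L.restrictScalars ℝ).det = ‖L.det‖ ^ 2 := by
  simp [ContinuousLinearMap.det, LinearMap.det_restrictScalars,
      Algebra.norm_complex_eq, Complex.normSq_eq_norm_sq]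

/-- A differentiable map with invertible derivatives on `S` is injective on the pieces of a
countable measurable partition of `S`. -/
theorem exists_inj_partition {E : Type*} [NormedAddCommGroup E] [NormedSpace ℝ E]
    [FiniteDimensional ℝ E] [MeasurableSpace E] [BorelSpace E] {f : E → E} {f' : E → E →L[ℝ] E}
    {S : Set E} (hf : ∀ x ∈ S, HasFDerivWithinAt f (f' x) S x) (hd : ∀ x ∈ S, (f' x).det ≠ 0) :
    ∃ t : ℕ → Set E, Pairwise (Function.onFun Disjoint t) ∧ (∀ k, MeasurableSet (t k)) ∧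
      S ⊆ ⋃ k, t k ∧ ∀ k, Set.InjOn f (S ∩ t k) := by
  classical
  let r : (E →L[ℝ] E) → ℝ≥0 := fun A =>
    if h : A.det = 0 then 1 else
      if ‖((A.toContinuousLinearEquivOfDetNeZero h).symm : E →L[ℝ] E)‖₊ = 0 then 1 else
        ‖((A.toContinuousLinearEquivOfDetNeZero h).symm : E →L[ℝ] E)‖₊⁻¹ / 2
  have rpos : ∀ A, r A ≠ 0 := by
    intro A
    by_cases h : A.det = 0
    · simp only [r, h, dite_true]; exact one_ne_zero
    · simp only [r, h, dite_false]
      split_ifs with h2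
      · exact one_ne_zero
      · positivity
  obtain ⟨t, A, h1, h2, h3, h4, h5⟩ :=
    exists_partition_approximatesLinearOn_of_hasFDerivWithinAt f S f' hf r rpos
  refine ⟨t, h1, h2, h3, fun k => ?_⟩
  rcases S.eq_empty_or_nonempty with hS | hS
  · simp [hS]
  obtain ⟨y, hy, hAy⟩ := h5 hS k
  have hdet : (A k).det ≠ 0 := by rw [hAy]; exact hd y hy
  have h6 := h4 k
  rw [← (A k).coe_toContinuousLinearEquivOfDetNeZero hdet] at h6
  refine h6.injOn ?_
  by_cases h7 : ‖(((A k).toContinuousLinearEquivOfDetNeZero hdet).symm : E →L[ℝ] E)‖₊ = 0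
  · left
    have h8 : (((A k).toContinuousLinearEquivOfDetNeZero hdet).symm : E →L[ℝ] E) = 0 := by
      simpa using h7
    refine ⟨fun x y => ?_⟩
    have hx : ((A k).toContinuousLinearEquivOfDetNeZero hdet).symm x = 0 :=
      DFunLike.congr_fun h8 x
    have hy : ((A k).toContinuousLinearEquivOfDetNeZero hdet).symm y = 0 :=
      DFunLike.congr_fun h8 y
    exact ((A k).toContinuousLinearEquivOfDetNeZero hdet).symm.injective (hx.trans hy.symm)
  · right
    rw [(A k).coe_toContinuousLinearEquivOfDetNeZero hdet]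
    simp only [r, hdet, h7, dite_false, if_false]
    exact half_lt_self (pos_iff_ne_zero.2 (inv_ne_zero h7))

/-- Area inequality with multiplicity. -/
theorem lintegral_comp_le {n N : ℕ} {ι : Type*} [Fintype ι] {A : ι → Set (Fin n → ℂ)}
    (hA : ∀ i, MeasurableSet (A i)) {U : ι → Set (Fin n → ℂ)} (hU : ∀ i, IsOpen (U i))
    (hAU : ∀ i, A i ⊆ U i) {h : ι → (Fin n → ℂ) → (Fin n → ℂ)}
    (hh : ∀ i, DifferentiableOn ℂ (h i) (U i))
    (hN : ∀ w, {x : ι × (Fin n → ℂ) | x.2 ∈ A x.1 ∧ h x.1 x.2 = w}.encard ≤ N)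
    {B : Set (Fin n → ℂ)} (hB : MeasurableSet B) (hAB : ∀ i, Set.MapsTo (h i) (A i) B)
    {G : (Fin n → ℂ) → ℝ≥0∞} (hG : Measurable G) :
    ∑ i, ∫⁻ z in A i, G (h i z) * ENNReal.ofReal (‖(fderiv ℂ (h i) z).det‖ ^ 2)
      ≤ N * ∫⁻ w in B, G w := by
  classical
  set D : ι → Set (Fin n → ℂ) := fun i => {z | (fderiv ℂ (h i) z).det ≠ 0} with hDdef
  have hDm : ∀ i, MeasurableSet (D i) := by
    intro i
    have : Measurable fun z => (fderiv ℂ (h i) z).det :=
      ContinuousLinearMap.continuous_det.measurable.comp (measurable_fderiv ℂ (h i))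
    exact this (measurableSet_singleton (0 : ℂ)).compl
  set S : ι → Set (Fin n → ℂ) := fun i => A i ∩ D i with hSdef
  have hSm : ∀ i, MeasurableSet (S i) := fun i => (hA i).inter (hDm i)
  have hder : ∀ i, ∀ x ∈ S i, HasFDerivAt (h i) ((fderiv ℂ (h i) x).restrictScalars ℝ) x := by
    intro i x hx
    have h1 : DifferentiableAt ℂ (h i) x :=
      (hh i x (hAU i hx.1)).differentiableAt ((hU i).mem_nhds (hAU i hx.1))
    exact h1.hasFDerivAt.restrictScalars ℝ
  have hpart : ∀ i, ∃ t : ℕ → Set (Fin n → ℂ), Pairwise (Function.onFun Disjoint t) ∧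
      (∀ k, MeasurableSet (t k)) ∧ S i ⊆ ⋃ k, t k ∧ ∀ k, Set.InjOn (h i) (S i ∩ t k) := by
    intro i
    refine exists_inj_partition (f' := fun x => (fderiv ℂ (h i) x).restrictScalars ℝ)
      (fun x hx => (hder i x hx).hasFDerivWithinAt) (fun x hx => ?_)
    rw [det_restrictScalars_eq]
    have := hx.2
    simp only [hDdef, Set.mem_ofPred_eq] at this
    positivity
  choose t ht1 ht2 ht3 ht4 using hpart
  -- the integral over one piece
  have hpiece : ∀ i k, ∫⁻ z in S i ∩ t i k, G (h i z) *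
      ENNReal.ofReal (‖(fderiv ℂ (h i) z).det‖ ^ 2) = ∫⁻ w in h i '' (S i ∩ t i k), G w := by
    intro i k
    rw [lintegral_image_eq_lintegral_abs_det_fderiv_mul volume ((hSm i).inter (ht2 i k))
      (f' := fun x => (fderiv ℂ (h i) x).restrictScalars ℝ)
      (fun x hx => (hder i x hx.1).hasFDerivWithinAt) (ht4 i k)]
    refine lintegral_congr fun z => ?_
    rw [det_restrictScalars_eq, abs_of_nonneg (by positivity), mul_comm]
  have himg : ∀ i k, MeasurableSet (h i '' (S i ∩ t i k)) := fun i k =>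
    measurable_image_of_fderivWithin ((hSm i).inter (ht2 i k))
      (fun x hx => (hder i x hx.1).hasFDerivWithinAt) (ht4 i k)
  have himgB : ∀ i k, h i '' (S i ∩ t i k) ⊆ B := by
    rintro i k _ ⟨x, hx, rfl⟩
    exact hAB i hx.1.1
  have hsum : ∀ i, ∫⁻ z in A i, G (h i z) * ENNReal.ofReal (‖(fderiv ℂ (h i) z).det‖ ^ 2) =
      ∑' k, ∫⁻ w in h i '' (S i ∩ t i k), G w := by
    intro i
    have e1 : ∫⁻ z in A i, G (h i z) * ENNReal.ofReal (‖(fderiv ℂ (h i) z).det‖ ^ 2) =
        ∫⁻ z in S i, G (h i z) * ENNReal.ofReal (‖(fderiv ℂ (h i) z).det‖ ^ 2) := by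
      rw [← lintegral_indicator (hA i), ← lintegral_indicator (hSm i)]
      refine lintegral_congr fun z => ?_
      by_cases hz : z ∈ A i
      · by_cases hz2 : z ∈ D i
        · rw [Set.indicator_of_mem hz, Set.indicator_of_mem (show z ∈ S i from ⟨hz, hz2⟩)]
        · rw [Set.indicator_of_mem hz, Set.indicator_of_notMem (fun h' => hz2 h'.2)]
          have : (fderiv ℂ (h i) z).det = 0 := by
            simpa [hDdef] using hz2
          simp [this]
      · rw [Set.indicator_of_notMem hz, Set.indicator_of_notMem (fun h' => hz h'.1)]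
    have e2 : S i = ⋃ k, S i ∩ t i k := by
      rw [← Set.inter_iUnion, Set.inter_eq_left.2 (ht3 i)]
    rw [e1]
    conv_lhs => rw [e2]
    rw [lintegral_iUnion (fun k => (hSm i).inter (ht2 i k))
      (fun a b hab => (ht1 i hab).mono Set.inter_subset_right Set.inter_subset_right)]
    exact tsum_congr fun k => hpiece i k
  have hcount : ∀ w, ∑' p : ι × ℕ, (h p.1 '' (S p.1 ∩ t p.1 p.2)).indicator
      (fun _ => (1 : ℝ≥0∞)) w ≤ N := by
    intro w
    rw [ENNReal.tsum_eq_iSup_sum]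
    refine iSup_le fun s => ?_
    rw [← Finset.sum_filter_add_sum_filter_not s
      (fun p : ι × ℕ => w ∈ h p.1 '' (S p.1 ∩ t p.1 p.2))]
    have z1 : ∑ p ∈ s.filter (fun p : ι × ℕ => ¬ w ∈ h p.1 '' (S p.1 ∩ t p.1 p.2)),
        (h p.1 '' (S p.1 ∩ t p.1 p.2)).indicator (fun _ => (1 : ℝ≥0∞)) w = 0 := by
      refine Finset.sum_eq_zero fun p hp => ?_
      exact Set.indicator_of_notMem (Finset.mem_filter.1 hp).2 _
    have z2 : ∑ p ∈ s.filter (fun p : ι × ℕ => w ∈ h p.1 '' (S p.1 ∩ t p.1 p.2)),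
        (h p.1 '' (S p.1 ∩ t p.1 p.2)).indicator (fun _ => (1 : ℝ≥0∞)) w =
        ((s.filter (fun p : ι × ℕ => w ∈ h p.1 '' (S p.1 ∩ t p.1 p.2))).card : ℝ≥0∞) := by
      rw [Finset.sum_congr rfl (g := fun _ => (1 : ℝ≥0∞))]
      · simp
      · intro p hp
        exact Set.indicator_of_mem (Finset.mem_filter.1 hp).2 _
    rw [z1, z2, add_zero]
    -- choose preimages
    have hex : ∀ p ∈ s.filter (fun p : ι × ℕ => w ∈ h p.1 '' (S p.1 ∩ t p.1 p.2)),
        ∃ x : Fin n → ℂ, x ∈ S p.1 ∩ t p.1 p.2 ∧ h p.1 x = w := by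
      intro p hp
      obtain ⟨x, hx, hxw⟩ := (Finset.mem_filter.1 hp).2
      exact ⟨x, hx, hxw⟩
    choose! g hg1 hg2 using hex
    set F := s.filter (fun p : ι × ℕ => w ∈ h p.1 '' (S p.1 ∩ t p.1 p.2)) with hF
    have hinj : Set.InjOn (fun p : ι × ℕ => (p.1, g p)) (F : Set (ι × ℕ)) := by
      rintro ⟨i, k⟩ hp ⟨j, l⟩ hq heq
      simp only [Prod.mk.injEq] at heq
      obtain ⟨rfl, hgg⟩ := heq
      by_contra hne
      have hkl : k ≠ l := fun hkl => hne (by rw [hkl])
      have hd := ht1 i hkl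
      exact Set.disjoint_left.1 hd (hg1 (i, k) hp).2 (hgg ▸ (hg1 (i, l) hq).2)
    have hsub : (fun p : ι × ℕ => (p.1, g p)) '' (F : Set (ι × ℕ)) ⊆
        {x : ι × (Fin n → ℂ) | x.2 ∈ A x.1 ∧ h x.1 x.2 = w} := by
      rintro _ ⟨p, hp, rfl⟩
      exact ⟨(hg1 p hp).1.1, hg2 p hp⟩
    have h9 : (F : Set (ι × ℕ)).encard ≤ N := by
      rw [← hinj.encard_image]
      exact (Set.encard_le_encard hsub).trans (hN w)
    rw [Set.encard_coe_eq_coe_finsetCard] at h9
    exact_mod_cast h9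
  calc ∑ i, ∫⁻ z in A i, G (h i z) * ENNReal.ofReal (‖(fderiv ℂ (h i) z).det‖ ^ 2)
      = ∑ i, ∑' k, ∫⁻ w in h i '' (S i ∩ t i k), G w := Finset.sum_congr rfl fun i _ => hsum i
    _ = ∑' p : ι × ℕ, ∫⁻ w in h p.1 '' (S p.1 ∩ t p.1 p.2), G w := by
        rw [ENNReal.tsum_prod (f := fun i k => ∫⁻ w in h i '' (S i ∩ t i k), G w), tsum_fintype]
    _ = ∑' p : ι × ℕ, ∫⁻ w in B, (h p.1 '' (S p.1 ∩ t p.1 p.2)).indicator
          (fun _ => (1 : ℝ≥0∞)) w * G w := by
        refine tsum_congr fun p => ?_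
        rw [← lintegral_indicator (himg p.1 p.2), ← lintegral_indicator hB]
        refine lintegral_congr fun w => ?_
        by_cases hw : w ∈ h p.1 '' (S p.1 ∩ t p.1 p.2)
        · rw [Set.indicator_of_mem hw, Set.indicator_of_mem (himgB _ _ hw),
            Set.indicator_of_mem hw, one_mul]
        · rw [Set.indicator_of_notMem hw]
          by_cases hwB : w ∈ B
          · rw [Set.indicator_of_mem hwB, Set.indicator_of_notMem hw, zero_mul]
          · rw [Set.indicator_of_notMem hwB]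
    _ = ∫⁻ w in B, ∑' p : ι × ℕ, (h p.1 '' (S p.1 ∩ t p.1 p.2)).indicator
          (fun _ => (1 : ℝ≥0∞)) w * G w := by
        rw [lintegral_tsum]
        intro p
        exact ((measurable_const.indicator (himg p.1 p.2)).mul hG).aemeasurable
    _ ≤ ∫⁻ w in B, N * G w := by
        refine lintegral_mono fun w => ?_
        rw [ENNReal.tsum_mul_right]
        exact mul_le_mul_left (hcount w) _
    _ = N * ∫⁻ w in B, G w := lintegral_const_mul _ hG

end Pool.Agent.Helper36.Abund
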